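import Pool.Agent.W133.DQ.StC

/-! # DQ-BOX: the local version of PP -/

set_option autoImplicit false

open scoped ContDiff
open Set Filter Topology

namespace Pool.Agent.W597.DQ
open Pool.Agent.W133.DQ

/-- contraction of the line to `(-1,1)` -/
noncomputable def sg (x : ℝ) : ℝ := x / √(1 + x ^ 2)

/-- the inverse of `sg` -/
noncomputable def ta (s : ℝ) : ℝ := s / √(1 - s ^ 2)

theorem sq_pos' (x : ℝ) : 0 < √(1 + x ^ 2) := Real.sqrt_pos.2 (by positivity)

theorem sg_lt (x : ℝ) : |sg x| < 1 := by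
  unfold sg
  rw [abs_div, abs_of_pos (sq_pos' x), div_lt_one (sq_pos' x)]
  refine Real.lt_sqrt_of_sq_lt ?_
  rw [sq_abs]
  linarith

theorem ta_sg (x : ℝ) : ta (sg x) = x := by
  have h1 := sq_pos' x
  have h0 : (0 : ℝ) < 1 + x ^ 2 := by positivity
  have h2 : 1 - (sg x) ^ 2 = (1 / √(1 + x ^ 2)) ^ 2 := by
    unfold sg
    rw [div_pow, div_pow, Real.sq_sqrt h0.le]
    field_simp
    ring
  unfold ta
  rw [h2, Real.sqrt_sq (by positivity)]
  unfold sg
  field_simp

theorem sg_ta {s : ℝ} (hs : |s| < 1) : sg (ta s) = s := by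
  have h0 : (0 : ℝ) < 1 - s ^ 2 := by
    have := (sq_lt_one_iff_abs_lt_one s).2 hs
    linarith
  have h1 : 0 < √(1 - s ^ 2) := Real.sqrt_pos.2 h0
  have h2 : 1 + (ta s) ^ 2 = (1 / √(1 - s ^ 2)) ^ 2 := by
    unfold ta
    rw [div_pow, div_pow, Real.sq_sqrt h0.le]
    field_simp
    ring
  unfold sg
  rw [h2, Real.sqrt_sq (by positivity)]
  unfold ta
  field_simp

theorem abs_sg (b : ℝ) : |sg b| = sg |b| := by
  unfold sg
  rw [abs_div, abs_of_pos (sq_pos' b), sq_abs]

theorem sg_strict {a b : ℝ} (ha : 0 ≤ a) (hab : a < b) : sg a < sg b := by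
  unfold sg
  rw [div_lt_div_iff₀ (sq_pos' a) (sq_pos' b)]
  refine (pow_lt_pow_iff_left₀ (by positivity) (by
    have := sq_pos' a
    have hb : 0 < b := lt_of_le_of_lt ha hab
    positivity) two_ne_zero).1 ?_
  have h2 : a ^ 2 < b ^ 2 := pow_lt_pow_left₀ hab ha two_ne_zero
  rw [mul_pow, mul_pow, Real.sq_sqrt (by positivity), Real.sq_sqrt (by positivity)]
  nlinarith

theorem sg_mono {a b : ℝ} (ha : 0 ≤ a) (hab : a ≤ b) : sg a ≤ sg b := by
  rcases eq_or_lt_of_le hab with h | h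
  · rw [h]
  · exact (sg_strict ha h).le

theorem sg_smooth : ContDiff ℝ ∞ sg := by
  unfold sg
  refine contDiff_id.div ?_ fun x => (sq_pos' x).ne'
  exact (contDiff_const.add (contDiff_id.pow 2)).sqrt fun x => by
    simp only [id]
    positivity

theorem ta_smooth {s : ℝ} (hs : |s| < 1) : ContDiffAt ℝ ∞ ta s := by
  have h0 : (0 : ℝ) < 1 - s ^ 2 := by
    have := (sq_lt_one_iff_abs_lt_one s).2 hs
    linarith
  unfold ta
  refine contDiffAt_id.div ?_ (Real.sqrt_pos.2 h0).ne'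
  exact (contDiffAt_const.sub (contDiffAt_id.pow 2)).sqrt h0.ne'

/-- the plane to the square -/
noncomputable def io (c : P2) (r : ℝ) (x : P2) : P2 := (c.1 + r * sg x.1, c.2 + r * sg x.2)

/-- the square to the plane -/
noncomputable def ka (c : P2) (r : ℝ) (p : P2) : P2 := (ta ((p.1 - c.1) / r), ta ((p.2 - c.2) / r))

theorem lt_iff (c p : P2) (r : ℝ) : ‖p - c‖ < r ↔ |p.1 - c.1| < r ∧ |p.2 - c.2| < r := by
  rw [Prod.norm_def, max_lt_iff]
  rfl

theorem io_norm (c x : P2) {r : ℝ} (hr : 0 < r) : ‖io c r x - c‖ = r * max |sg x.1| |sg x.2| := by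
  rw [Prod.norm_def]
  have h1 : ‖(io c r x - c).1‖ = r * |sg x.1| := by
    show |c.1 + r * sg x.1 - c.1| = _
    rw [add_sub_cancel_left, abs_mul, abs_of_pos hr]
  have h2 : ‖(io c r x - c).2‖ = r * |sg x.2| := by
    show |c.2 + r * sg x.2 - c.2| = _
    rw [add_sub_cancel_left, abs_mul, abs_of_pos hr]
  rw [h1, h2, mul_max_of_nonneg _ _ hr.le]

theorem io_lt (c x : P2) {r : ℝ} (hr : 0 < r) : ‖io c r x - c‖ < r := by
  rw [io_norm c x hr]
  have := max_lt (sg_lt x.1) (sg_lt x.2)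
  nlinarith

theorem ka_io (c x : P2) {r : ℝ} (hr : 0 < r) : ka c r (io c r x) = x := by
  unfold ka io
  refine Prod.ext ?_ ?_
  · show ta ((c.1 + r * sg x.1 - c.1) / r) = x.1
    rw [add_sub_cancel_left, mul_div_cancel_left₀ _ hr.ne', ta_sg]
  · show ta ((c.2 + r * sg x.2 - c.2) / r) = x.2
    rw [add_sub_cancel_left, mul_div_cancel_left₀ _ hr.ne', ta_sg]

theorem io_ka (c p : P2) {r : ℝ} (hr : 0 < r) (hp : ‖p - c‖ < r) : io c r (ka c r p) = p := by
  obtain ⟨h1, h2⟩ := (lt_iff c p r).1 hp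
  have h3 : |(p.1 - c.1) / r| < 1 := by rwa [abs_div, abs_of_pos hr, div_lt_one hr]
  have h4 : |(p.2 - c.2) / r| < 1 := by rwa [abs_div, abs_of_pos hr, div_lt_one hr]
  unfold ka io
  refine Prod.ext ?_ ?_
  · show c.1 + r * sg (ta ((p.1 - c.1) / r)) = p.1
    rw [sg_ta h3]
    field_simp
    ring
  · show c.2 + r * sg (ta ((p.2 - c.2) / r)) = p.2
    rw [sg_ta h4]
    field_simp
    ring

theorem io_smooth (c : P2) (r : ℝ) : ContDiff ℝ ∞ (io c r) := by
  unfold io
  exact (contDiff_const.add (contDiff_const.mul (sg_smooth.comp contDiff_fst))).prodMk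
    (contDiff_const.add (contDiff_const.mul (sg_smooth.comp contDiff_snd)))

theorem ka_smooth (c p : P2) {r : ℝ} (hr : 0 < r) (hp : ‖p - c‖ < r) :
    ContDiffAt ℝ ∞ (ka c r) p := by
  obtain ⟨h1, h2⟩ := (lt_iff c p r).1 hp
  have h3 : |(p.1 - c.1) / r| < 1 := by rwa [abs_div, abs_of_pos hr, div_lt_one hr]
  have h4 : |(p.2 - c.2) / r| < 1 := by rwa [abs_div, abs_of_pos hr, div_lt_one hr]
  unfold ka
  refine ContDiffAt.prodMk ?_ ?_
  · exact ContDiffAt.comp (g := ta) (f := fun p : P2 => (p.1 - c.1) / r) p (ta_smooth h3)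
      ((contDiffAt_fst.sub contDiffAt_const).div_const r)
  · exact ContDiffAt.comp (g := ta) (f := fun p : P2 => (p.2 - c.2) / r) p (ta_smooth h4)
      ((contDiffAt_snd.sub contDiffAt_const).div_const r)

/-- the bijection of the plane with the square -/
noncomputable def ep (c : P2) {r : ℝ} (hr : 0 < r) : P2 ≃ {p : P2 // ‖p - c‖ < r} where
  toFun x := ⟨io c r x, io_lt c x hr⟩
  invFun p := ka c r p.1
  left_inv x := ka_io c x hr
  right_inv p := Subtype.ext (io_ka c p.1 hr p.2)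

open scoped Classical in
/-- the conjugate by `io`, extended by the identity -/
noncomputable def J (c : P2) {r : ℝ} (hr : 0 < r) (k : Equiv.Perm P2) : Equiv.Perm P2 :=
  k.extendDomain (ep c hr)

theorem J_mul (c : P2) {r : ℝ} (hr : 0 < r) (k k' : Equiv.Perm P2) :
    J c hr (k * k') = J c hr k * J c hr k' := by
  unfold J
  rw [Equiv.Perm.extendDomain_mul]

theorem J_inv (c : P2) {r : ℝ} (hr : 0 < r) (k : Equiv.Perm P2) :
    (J c hr k)⁻¹ = J c hr k⁻¹ := by
  unfold J
  rw [Equiv.Perm.extendDomain_inv]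

theorem J_in (c p : P2) {r : ℝ} (hr : 0 < r) (k : Equiv.Perm P2) (hp : ‖p - c‖ < r) :
    J c hr k p = io c r (k (ka c r p)) := by
  unfold J
  rw [Equiv.Perm.extendDomain_apply_subtype (b := p) _ _ hp]
  rfl

theorem J_out (c p : P2) {r : ℝ} (hr : 0 < r) (k : Equiv.Perm P2) (hp : ¬ ‖p - c‖ < r) :
    J c hr k p = p := by
  unfold J
  rw [Equiv.Perm.extendDomain_apply_not_subtype (b := p) _ _ hp]

/-- where `J k` is the identity -/
theorem J_id (c : P2) {r : ℝ} (hr : 0 < r) (k : Equiv.Perm P2) {R : ℝ}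
    (hk : ∀ p, R < ‖p‖ → k p = p) (p : P2) (hp : r * sg (R + 1) ≤ ‖p - c‖) :
    J c hr k p = p := by
  by_cases h : ‖p - c‖ < r
  · rw [J_in c p hr k h, hk, io_ka c p hr h]
    by_contra hc
    have hc : ‖ka c r p‖ ≤ R := not_lt.1 hc
    have h1 : |(ka c r p).1| ≤ R := (norm_fst_le _).trans hc
    have h2 : |(ka c r p).2| ≤ R := (norm_snd_le _).trans hc
    have h3 := io_norm c (ka c r p) hr
    rw [io_ka c p hr h] at h3
    rw [h3] at hp
    have h4 := le_of_mul_le_mul_left hp hr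
    rw [abs_sg, abs_sg] at h4
    have h5 : max (sg |(ka c r p).1|) (sg |(ka c r p).2|) < sg (R + 1) :=
      max_lt (sg_strict (abs_nonneg _) (by linarith)) (sg_strict (abs_nonneg _) (by linarith))
    linarith
  · exact J_out c p hr k h

theorem J_smooth (c : P2) {r : ℝ} (hr : 0 < r) (k : Equiv.Perm P2) {R : ℝ}
    (hk : ∀ p, R < ‖p‖ → k p = p) (hs : ContDiff ℝ ∞ (fun p => k p)) :
    ContDiff ℝ ∞ (fun p => J c hr k p) := by
  rw [contDiff_iff_contDiffAt]
  intro p
  by_cases h : ‖p - c‖ < r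
  · have h1 : (fun p => J c hr k p) =ᶠ[𝓝 p] fun p => io c r (k (ka c r p)) := by
      have ho : IsOpen {p : P2 | ‖p - c‖ < r} :=
        isOpen_lt (continuous_id.sub continuous_const).norm continuous_const
      filter_upwards [ho.mem_nhds h] with q hq
      exact J_in c q hr k hq
    refine ContDiffAt.congr_of_eventuallyEq ?_ h1
    exact ((io_smooth c r).comp hs).contDiffAt.comp p (ka_smooth c p hr h)
  · have h1 : (fun p => J c hr k p) =ᶠ[𝓝 p] fun p => p := by
      have ho : IsOpen {p : P2 | r * sg (R + 1) < ‖p - c‖} :=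
        isOpen_lt continuous_const (continuous_id.sub continuous_const).norm
      have hp : p ∈ {p : P2 | r * sg (R + 1) < ‖p - c‖} := by
        have h2 := (abs_lt.1 (sg_lt (R + 1))).2
        have h3 : r ≤ ‖p - c‖ := not_lt.1 h
        show r * sg (R + 1) < ‖p - c‖
        nlinarith
      filter_upwards [ho.mem_nhds hp] with q hq
      exact J_id c hr k hk q (le_of_lt hq)
    exact ContDiffAt.congr_of_eventuallyEq contDiffAt_id h1

theorem J_mem (c : P2) {r : ℝ} (hr : 0 < r) {k : Equiv.Perm P2} (hk : k ∈ DC) :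
    J c hr k ∈ DB c r := by
  obtain ⟨⟨h1, h2⟩, R, hR⟩ := hk
  have hR' : ∀ p, R < ‖p‖ → k⁻¹ p = p := fun p hp => by
    rw [Equiv.Perm.inv_eq_iff_eq, hR p hp]
  have h3 : r * sg (R + 1) < r := by
    have := (abs_lt.1 (sg_lt (R + 1))).2
    nlinarith
  refine ⟨⟨⟨J_smooth c hr k hR h1, ?_⟩, ‖c‖ + r, fun p hp => ?_⟩, r * sg (R + 1), h3,
    fun p hp => J_id c hr k hR p hp⟩
  · rw [J_inv]
    exact J_smooth c hr k⁻¹ hR' h2
  · refine J_out c p hr k ?_
    have := norm_sub_norm_le p c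
    intro hc
    linarith

/-- every element of `DB c r` is some `J k` -/
theorem J_surj (c : P2) {r : ℝ} (hr : 0 < r) {f : Equiv.Perm P2} (hf : f ∈ DB c r) :
    ∃ k ∈ DC, J c hr k = f := by
  obtain ⟨⟨⟨h1, h2⟩, -⟩, r', hr', hf'⟩ := hf
  have hout : ∀ p, ¬ ‖p - c‖ < r → f p = p := fun p hp => hf' p (by
    have := not_lt.1 hp
    linarith)
  have hin : ∀ p, ‖f p - c‖ < r ↔ ‖p - c‖ < r := by
    intro p
    constructor
    · intro h
      by_contra hc
      rw [hout p hc] at h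
      exact hc h
    · intro h
      by_contra hc
      have h3 := hout (f p) hc
      rw [f.injective h3] at hc
      exact hc h
  set k : Equiv.Perm P2 := ((ep c hr).trans (f.subtypePerm hin)).trans (ep c hr).symm with hkdef
  have hk1 : ∀ x, k x = ka c r (f (io c r x)) := fun x => rfl
  have hk2 : ∀ x, k⁻¹ x = ka c r (f⁻¹ (io c r x)) := by
    intro x
    rw [Equiv.Perm.inv_eq_iff_eq, hk1, io_ka c _ hr ((hin _).1 (by
      rw [show f (f⁻¹ (io c r x)) = io c r x from f.apply_symm_apply _]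
      exact io_lt c x hr)), show f (f⁻¹ (io c r x)) = io c r x from f.apply_symm_apply _,
      ka_io c x hr]
  have hio : ∀ x, ‖f (io c r x) - c‖ < r := fun x => (hin _).2 (io_lt c x hr)
  have hio' : ∀ x, ‖f⁻¹ (io c r x) - c‖ < r := fun x => (hin _).1 (by
    rw [show f (f⁻¹ (io c r x)) = io c r x from f.apply_symm_apply _]
    exact io_lt c x hr)
  refine ⟨k, ⟨⟨?_, ?_⟩, ?_⟩, ?_⟩
  · rw [contDiff_iff_contDiffAt]
    intro x
    have h3 : (fun p => k p) = fun p => ka c r (f (io c r p)) := funext hk1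
    rw [h3]
    exact ContDiffAt.comp (g := ka c r) (f := fun p => f (io c r p)) x
      (ka_smooth c _ hr (hio x)) (h1.comp (io_smooth c r)).contDiffAt
  · rw [contDiff_iff_contDiffAt]
    intro x
    have h3 : (fun p => k⁻¹ p) = fun p => ka c r (f⁻¹ (io c r p)) := funext hk2
    rw [h3]
    exact ContDiffAt.comp (g := ka c r) (f := fun p => f⁻¹ (io c r p)) x
      (ka_smooth c _ hr (hio' x)) (h2.comp (io_smooth c r)).contDiffAt
  · -- compact support
    set s := max r' 0 / r with hs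
    have hs0 : 0 ≤ s := div_nonneg (le_max_right _ _) hr.le
    have hs1 : s < 1 := by
      rw [hs, div_lt_one hr]
      exact max_lt hr' hr
    refine ⟨ta s, fun x hx => ?_⟩
    have hta : 0 ≤ ta s := div_nonneg hs0 (Real.sqrt_nonneg _)
    rw [hk1, hf', ka_io c x hr]
    rw [io_norm c x hr]
    have h3 : s ≤ max |sg x.1| |sg x.2| := by
      rw [Prod.norm_def, lt_max_iff] at hx
      have h4 : sg (ta s) = s := sg_ta (by rwa [abs_of_nonneg hs0])
      rw [abs_sg, abs_sg]
      rcases hx with hx | hx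
      · refine le_max_of_le_left ?_
        rw [← h4]
        exact sg_mono hta hx.le
      · refine le_max_of_le_right ?_
        rw [← h4]
        exact sg_mono hta hx.le
    have h5 : max r' 0 = r * s := by
      rw [hs]
      field_simp
    calc r' ≤ max r' 0 := le_max_left _ _
      _ = r * s := h5
      _ ≤ _ := mul_le_mul_of_nonneg_left h3 hr.le
  · refine Equiv.ext fun p => ?_
    by_cases h : ‖p - c‖ < r
    · rw [J_in c p hr k h, hk1, io_ka c p hr h, io_ka c _ hr ((hin p).2 h)]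
    · rw [J_out c p hr k h, hout p h]

theorem box (hPP : S_PP) : S_BOX := by
  intro c r hr L hL f hf
  obtain ⟨k, hk, rfl⟩ := J_surj c hr hf
  refine hPP (fun k => L (J c hr k)) ?_ k hk
  intro a ha b hb
  show L (J c hr (a * b)) = _
  rw [J_mul]
  exact hL _ (J_mem c hr ha) _ (J_mem c hr hb)

end Pool.Agent.W597.DQ
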